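import Pool.Agent.W102.TD.Defs

/-! Project TD (MP_4ac633_lc): part TCOEF. -/

set_option autoImplicit false

namespace Pool.Agent.W300.TD

open Finset Pool.Agent.W102.TD

theorem tcoef : TCOEF := by
  intro F _ _ m hm hcard H γ hev t ht
  classical
  have hq0 : 0 < 2 ^ m - 1 := by omega
  have hyq : ∀ y : F, y ≠ 0 → y ^ (2 ^ m - 1) = 1 := by
    intro y hy
    have := FiniteField.pow_card_sub_one_eq_one y hy
    rwa [hcard] at this
  let c : ℕ → F := fun t => ∑ p ∈ (range (2 ^ m - 1) ×ˢ range (2 ^ m - 1)).filter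
    (fun p : ℕ × ℕ => (p.1 + p.2) % (2 ^ m - 1) = t), H p.1 p.2 * γ ^ p.1
  let P : Polynomial F := ∑ t ∈ range (2 ^ m - 1), Polynomial.C (c t) * Polynomial.X ^ t
  have heval : ∀ y : F, y ≠ 0 → P.eval y = ev m H (γ * y) y := by
    intro y hy
    have h1 : P.eval y = ∑ t ∈ range (2 ^ m - 1),
        ∑ p ∈ (range (2 ^ m - 1) ×ˢ range (2 ^ m - 1)).filter
          (fun p : ℕ × ℕ => (p.1 + p.2) % (2 ^ m - 1) = t),
          H p.1 p.2 * (γ * y) ^ p.1 * y ^ p.2 := by
      rw [Polynomial.eval_finsetSum]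
      refine Finset.sum_congr rfl fun t _ => ?_
      rw [Polynomial.eval_mul, Polynomial.eval_C, Polynomial.eval_pow, Polynomial.eval_X,
        Finset.sum_mul]
      refine Finset.sum_congr rfl fun p hp => ?_
      have hp2 : (p.1 + p.2) % (2 ^ m - 1) = t := (Finset.mem_filter.1 hp).2
      have h2 : y ^ (p.1 + p.2) = y ^ t := by
        conv_lhs => rw [← Nat.div_add_mod (p.1 + p.2) (2 ^ m - 1), pow_add, pow_mul, hyq y hy,
          one_pow, one_mul, hp2]
      rw [mul_pow, ← h2, pow_add]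
      ring
    rw [h1, Finset.sum_fiberwise_of_maps_to
      (g := fun p : ℕ × ℕ => (p.1 + p.2) % (2 ^ m - 1))
      (fun p _ => Finset.mem_range.2 (Nat.mod_lt _ hq0)), Finset.sum_product]
    rfl
  have hdeg : P.natDegree < 2 ^ m - 1 := by
    refine lt_of_le_of_lt (Polynomial.natDegree_sum_le_of_forall_le (n := 2 ^ m - 1 - 1) _ _ ?_)
      (by omega)
    intro t ht
    refine (Polynomial.natDegree_C_mul_X_pow_le _ _).trans ?_
    have := Finset.mem_range.1 ht
    omega
  have hP : P = 0 := by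
    refine Polynomial.eq_zero_of_natDegree_lt_card_of_eval_eq_zero' P
      (Finset.univ.erase (0 : F)) ?_ ?_
    · intro y hy
      have hy0 : y ≠ 0 := Finset.ne_of_mem_erase hy
      rw [heval y hy0, hev y hy0]
    · rw [Finset.card_erase_of_mem (Finset.mem_univ _), Finset.card_univ, hcard]
      exact hdeg
  have hcoef : P.coeff t = c t := by
    change (∑ t ∈ range (2 ^ m - 1), Polynomial.C (c t) * Polynomial.X ^ t).coeff t = c t
    rw [Polynomial.finsetSum_coeff]
    simp only [Polynomial.coeff_C_mul_X_pow]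
    rw [Finset.sum_ite_eq, if_pos (Finset.mem_range.2 ht)]
  rw [hP, Polynomial.coeff_zero] at hcoef
  exact hcoef.symm

end Pool.Agent.W300.TD
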